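import Pool.Agent.Wi.FIN

/-! For every even `d` there is `n0` such that for all `n` at least `n0` every graph of order `n` and
diameter `d` with maximal Wiener index is a tree. -/

namespace Pool.Agent.Results.MP_27e0c7_co.EvenDiameterTrees

open Finset

/-- The Wiener index of a graph on `n` vertices: the sum of the distances over all unordered pairs of
distinct vertices (each pair is counted once, as `p.1 < p.2`). -/
noncomputable def wienerIndex {n : ℕ} (G : SimpleGraph (Fin n)) : ℕ :=
  ∑ p ∈ (univ : Finset (Fin n × Fin n)).filter (fun p => p.1 < p.2), G.dist p.1 p.2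

/-- The class of connected graphs of order `n` and diameter `d`. -/
def InClass (n d : ℕ) (G : SimpleGraph (Fin n)) : Prop := G.Connected ∧ G.diam = d

/-- `G` is extremal: it lies in the class and has the largest Wiener index in the class. -/
def IsExtremal (n d : ℕ) (G : SimpleGraph (Fin n)) : Prop :=
  InClass n d G ∧ ∀ H : SimpleGraph (Fin n), InClass n d H → wienerIndex H ≤ wienerIndex G

theorem result : ∀ d : ℕ, 2 ≤ d → Even d → ∃ n0 : ℕ, ∀ n : ℕ, n0 ≤ n →
    ∀ G : SimpleGraph (Fin n), IsExtremal n d G → G.IsTree := by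
  intro d hd he
  obtain ⟨n0, h0⟩ := Pool.Agent.Wi.final d he hd
  exact ⟨n0, fun n hn G hG => h0 n hn G ⟨hG.1, fun H hH hd' => hG.2 H ⟨hH, hd'⟩⟩⟩

end Pool.Agent.Results.MP_27e0c7_co.EvenDiameterTrees
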